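import Pool.Agent.H66.L.S8.Y504.CO.Stm5
import Pool.Agent.H66.L.S8.Y600.CO.TI

/-!
# Forward orbits in a minimal limit converge to periodic orbits (job CO-K2 of helper504)

(adapted from `Pool/Agent/Y600/CO/TI.lean`)
-/

set_option autoImplicit false

open scoped Topology
open Filter Set Metric

universe u

namespace Pool.Agent.Y67.CO.K2

open Pool.Agent.Y504.CO Pool.Agent.TH80.OMS Pool.Agent.Y600.CO Pool.Agent.Y600.CO.TI

variable {X : Type u} [MetricSpace X]

/-- limit points of the forward orbit are periodic -/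
theorem lim_per [CompactSpace X] (h0 : S_T0.{u}) (f : X ≃ₜ X) (hrec : Rec f ⊆ Per f) {H : Set X}
    (hH : MinLim f H) {x : X} (hx : x ∈ H) (hxp : x ∉ Per f) (y : X) (t : ℕ → ℕ)
    (ht : Tendsto t atTop atTop)
    (hy : Tendsto (fun k => f^[t k] x) atTop (𝓝 y)) : y ∈ Per f := by
  by_contra hyp
  obtain ⟨hT, himg, -, -⟩ := h0 X f
  have hI := himg H hH.1
  obtain ⟨ψ, hψ, htψ⟩ := strictMono_subseq_of_tendsto_atTop ht
  have hy' : Tendsto (fun k => f^[t (ψ k)] x) atTop (𝓝 y) := hy.comp hψ.tendsto_atTop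
  have hlt : ∀ k, t (ψ k) < t (ψ (k + 1)) := fun k => htψ (Nat.lt_succ_self k)
  have hend : ∀ k, f^[t (ψ (k + 1)) - t (ψ k)] (f^[t (ψ k)] x) = f^[t (ψ (k + 1))] x := by
    intro k
    rw [← Function.iterate_add_apply, Nat.sub_add_cancel (hlt k).le]
  obtain ⟨φ, H', hφ, hcl, hne, hseg⟩ := hT (fun k => f^[t (ψ k)] x)
    (fun k => t (ψ (k + 1)) - t (ψ k)) (fun k => by have := hlt k; omega) (by
      simp only [hend]
      have h1 : Tendsto (fun k => f^[t (ψ (k + 1))] x) atTop (𝓝 y) :=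
        hy'.comp (tendsto_add_atTop_nat 1)
      have h2 := h1.dist hy'
      rwa [dist_self] at h2)
  have hxH : ∀ n : ℕ, f^[n] x ∈ H := fun n => image_it f hI hx n
  have htk : ∀ N : ℕ, ∀ᶠ k in atTop, N ≤ t (ψ (φ k)) := fun N =>
    ((htψ.comp hφ).tendsto_atTop).eventually (eventually_ge_atTop N)
  have hsub : H' ⊆ H := by
    intro y' hy'2
    rw [← hH.1.1.closure_eq, Metric.mem_closure_iff]
    intro ε hε
    obtain ⟨k, hk⟩ := (hseg ε hε).exists
    obtain ⟨i, -, hi⟩ := hk.dense y' hy'2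
    refine ⟨_, ?_, by rw [dist_comm]; exact hi⟩
    rw [← Function.iterate_add_apply]
    exact hxH _
  have hyH' : y ∈ H' := by
    rw [← hcl.closure_eq, Metric.mem_closure_iff]
    intro ε hε
    have h1 : ∀ᶠ k in atTop, dist (f^[t (ψ (φ k))] x) y < ε / 2 :=
      (hy'.comp hφ.tendsto_atTop).eventually (ball_mem_nhds y (by positivity))
    obtain ⟨k, hk, hk2⟩ := ((hseg (ε / 2) (by positivity)).and h1).exists
    obtain ⟨y', hy'2, hd⟩ := hk.near 0 (Nat.zero_le _)
    refine ⟨y', hy'2, ?_⟩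
    have hd' : dist (f^[t (ψ (φ k))] x) y' < ε / 2 := hd
    calc dist y y' ≤ dist y (f^[t (ψ (φ k))] x) + dist (f^[t (ψ (φ k))] x) y' := dist_triangle _ _ _
      _ < ε := by rw [dist_comm y]; linarith
  have hlim : IsLim f H' := ⟨hcl, hne, fun ε hε => by
    obtain ⟨k, hk⟩ := (hseg ε hε).exists
    exact ⟨_, _, hk⟩⟩
  have hEq : H' = H := hH.2.2 H' hsub hlim fun hc => hyp (hc hyH')
  have hxH' : x ∈ H' := by rw [hEq]; exact hx
  refine hxp (hrec fun W hW => ?_)
  obtain ⟨ε, hε, hball⟩ := Metric.mem_nhds_iff.1 hW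
  obtain ⟨k, hk, hk2⟩ := ((hseg ε hε).and (htk 1)).exists
  obtain ⟨i, -, hi⟩ := hk.dense x hxH'
  rw [← Function.iterate_add_apply] at hi
  exact ⟨i + t (ψ (φ k)), by omega, hball hi⟩

theorem main (h0 : S_T0.{u}) : S_K2.{u} := by
  intro X _ _ f hiso hrec H hH z hzH hzp
  obtain ⟨-, himg, -, -⟩ := h0 X f
  have hI := himg H hH.1
  obtain ⟨p, φ, hφ, hp⟩ := CompactSpace.tendsto_subseq (fun k : ℕ => f^[k] z)
  have hp' : Tendsto (fun k => f^[φ k] z) atTop (𝓝 p) := hp
  have hpP : p ∈ Per f := lim_per h0 f hrec hH hzH hzp p φ hφ.tendsto_atTop hp'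
  have hpH : p ∈ H := hH.1.1.mem_of_tendsto hp'
    (Eventually.of_forall fun k => image_it f hI hzH (φ k))
  obtain ⟨O, hO, hpO, hOi⟩ := hiso p hpP
  refine ⟨p, hpP, hpH, ?_⟩
  by_cases hev : ∀ᶠ i : ℕ in atTop, f^[i] z ∈ O
  · refine omegaTo_of f hOi z ?_
    filter_upwards [hev] with i hi
    exact subset_closure hi
  · exfalso
    rw [not_eventually, frequently_atTop] at hev
    choose c hc1 hc2 using fun k => hev (φ k + 1)
    have hin : ∀ j : ℕ, ∀ᶠ k in atTop, f^[φ k + j] z ∈ O := by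
      intro j
      have h1 : Tendsto (fun k => f^[j] (f^[φ k] z)) atTop (𝓝 (f^[j] p)) :=
        ((f.continuous.iterate j).tendsto p).comp hp'
      filter_upwards [h1.eventually (hO.mem_nhds (hpO (orb_it f p j)))] with k hk
      rw [add_comm, Function.iterate_add_apply]; exact hk
    obtain ⟨e, ψ, w, hψ, he, hinf, hw, hwO, hbw⟩ := exit f O hO (fun _ => z) φ c
      (Eventually.of_forall fun k => by have := hc1 k; omega)
      (Eventually.of_forall fun k => hc2 k) (fun j _ => hin j)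
    have hwp : w ∈ Per f := by
      refine lim_per h0 f hrec hH hzH hzp w (fun k => e (ψ k)) ?_ hw
      rw [Filter.tendsto_atTop]
      intro N
      filter_upwards [hψ.tendsto_atTop.eventually (hinf N)] with k hk
      omega
    exact hwO (hpO (per_bwd f hOi w hwp hbw))

end Pool.Agent.Y67.CO.K2
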